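import Pool.Agent.N162.HN.Stm
import Pool.Agent.Y184.NT.Prep
import Pool.Agent.Y988.NT.Res
import Pool.Agent.W602.GT.Der

/-!
Project HN: a smooth hypersurface is not covered by curves of low degree.
-/

set_option autoImplicit false
set_option linter.overlappingInstances false

open FF Pool.Agent.W603.LV Pool.Agent.Y184.NT Pool.Agent.N162.BC IntermediateField MvPolynomial
open Pool.Agent.N162.HN

namespace Pool.Agent.N607.HN

/-! ### Linear changes of coordinates -/

section coord

variable {N : ℕ}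

theorem der_aeval {R : Type} [CommRing R] [Algebra ℂ R] (D : Derivation ℂ R R) (g : Fin N → R)
    (F : MvPolynomial (Fin N) ℂ) : D (aeval g F) = ∑ i, aeval g (pderiv i F) * D (g i) := by
  classical
  induction F using MvPolynomial.induction_on with
  | C a => simp
  | add p q hp hq =>
    simp only [map_add, hp, hq, add_mul, Finset.sum_add_distrib]
  | mul_X p i hp =>
    have h1 : ∀ j, aeval g (pderiv j (p * X i)) * D (g j) =
        g i * (aeval g (pderiv j p) * D (g j)) + if j = i then aeval g p * D (g j) else 0 := by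
      intro j
      rw [pderiv_mul, map_add, map_mul, map_mul, aeval_X, pderiv_X]
      by_cases h : j = i
      · subst h
        rw [Pi.single_eq_same, map_one, if_pos rfl]
        ring
      · rw [Pi.single_eq_of_ne (Ne.symm h), map_zero, if_neg h]
        ring
    simp only [h1, Finset.sum_add_distrib, Finset.sum_ite_eq', Finset.mem_univ, if_true]
    rw [map_mul, aeval_X, D.leibniz, hp, smul_eq_mul, smul_eq_mul, Finset.mul_sum, add_comm]

theorem sm_change {F : MvPolynomial (Fin N) ℂ} (hs : Sm F) (G H : Fin N → MvPolynomial (Fin N) ℂ)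
    (h1 : ∀ i, aeval G (H i) = X i) (h2 : ∀ i, aeval H (G i) = X i)
    (h0 : ∀ i, eval 0 (H i) = 0) : Sm (aeval G F) := by
  intro z hz
  by_contra hl
  push Not at hl
  set w : Fin N → ℂ := fun i => eval z (G i) with hw
  have hwH : ∀ i, eval w (H i) = z i := by
    intro i
    have h3 := congrArg (eval z) (h1 i)
    rw [eval_X] at h3
    rw [← h3]
    have h4 : eval z (aeval G (H i)) = aeval (fun j => aeval z (G j)) (H i) :=
      (comp_aeval_apply (aeval z) (H i) (f := G)).trans rfl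
    rw [h4]
    rfl
  have hw0 : w ≠ 0 := by
    intro h
    apply hz
    funext i
    rw [← hwH i, h, h0]
    rfl
  obtain ⟨k, hk⟩ := hs w hw0
  apply hk
  have hF : aeval H (aeval G F) = F := by
    rw [comp_aeval_apply]
    simp only [h2]
    rw [aeval_X_left, AlgHom.id_apply]
  have h3 := der_aeval (pderiv k) H (aeval G F)
  rw [hF] at h3
  rw [h3, map_sum]
  refine Finset.sum_eq_zero fun i _ => ?_
  rw [map_mul]
  have h4 : eval w (aeval H (pderiv i (aeval G F))) = eval z (pderiv i (aeval G F)) := by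
    have h5 : eval w (aeval H (pderiv i (aeval G F))) =
        aeval (fun j => aeval w (H j)) (pderiv i (aeval G F)) :=
      (comp_aeval_apply (aeval w) _ (f := H)).trans rfl
    rw [h5]
    have h6 : (fun j => aeval w (H j)) = z := funext fun j => hwH j
    rw [h6]
    rfl
  rw [h4, hl i, zero_mul]

end coord

section change

variable {n : ℕ}

/-- the form of the old coordinate `1` -/
noncomputable def G (n s : ℕ) : Fin (n + 2) → MvPolynomial (Fin (n + 2)) ℂ :=
  Function.update X 1 (X 1 - ∑ k : Fin n, C ((s : ℂ) ^ ((k : ℕ) + 1)) * X k.succ.succ)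

/-- the inverse change -/
noncomputable def H (n s : ℕ) : Fin (n + 2) → MvPolynomial (Fin (n + 2)) ℂ :=
  Function.update X 1 (X 1 + ∑ k : Fin n, C ((s : ℂ) ^ ((k : ℕ) + 1)) * X k.succ.succ)

theorem ss_ne (k : Fin n) : (k.succ.succ : Fin (n + 2)) ≠ 1 := by
  intro h
  have h1 := congrArg Fin.val h
  simp at h1

theorem G_ne (s : ℕ) {i : Fin (n + 2)} (hi : i ≠ 1) : G n s i = X i := Function.update_of_ne hi _ _

theorem H_ne (s : ℕ) {i : Fin (n + 2)} (hi : i ≠ 1) : H n s i = X i := Function.update_of_ne hi _ _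

theorem G_one (s : ℕ) : G n s 1 = X 1 - ∑ k : Fin n, C ((s : ℂ) ^ ((k : ℕ) + 1)) * X k.succ.succ :=
  Function.update_self _ _ _

theorem H_one (s : ℕ) : H n s 1 = X 1 + ∑ k : Fin n, C ((s : ℂ) ^ ((k : ℕ) + 1)) * X k.succ.succ :=
  Function.update_self _ _ _

theorem GH (s : ℕ) (i : Fin (n + 2)) : aeval (G n s) (H n s i) = X i := by
  by_cases hi : i = 1
  · subst hi
    rw [H_one, map_add, aeval_X, G_one, map_sum]
    have h1 : ∑ k : Fin n, aeval (G n s) (C ((s : ℂ) ^ ((k : ℕ) + 1)) * X k.succ.succ) =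
        ∑ k : Fin n, C ((s : ℂ) ^ ((k : ℕ) + 1)) * X k.succ.succ := by
      refine Finset.sum_congr rfl fun k _ => ?_
      rw [map_mul, aeval_X, G_ne s (ss_ne k), aeval_C]
      rfl
    rw [h1, sub_add_cancel]
  · rw [H_ne s hi, aeval_X, G_ne s hi]

theorem HG (s : ℕ) (i : Fin (n + 2)) : aeval (H n s) (G n s i) = X i := by
  by_cases hi : i = 1
  · subst hi
    rw [G_one, map_sub, aeval_X, H_one, map_sum]
    have h1 : ∑ k : Fin n, aeval (H n s) (C ((s : ℂ) ^ ((k : ℕ) + 1)) * X k.succ.succ) =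
        ∑ k : Fin n, C ((s : ℂ) ^ ((k : ℕ) + 1)) * X k.succ.succ := by
      refine Finset.sum_congr rfl fun k _ => ?_
      rw [map_mul, aeval_X, H_ne s (ss_ne k), aeval_C]
      rfl
    rw [h1, add_sub_cancel_right]
  · rw [G_ne s hi, aeval_X, H_ne s hi]

theorem H_zero (s : ℕ) (i : Fin (n + 2)) : eval 0 (H n s i) = 0 := by
  by_cases hi : i = 1
  · subst hi
    rw [H_one, map_add, eval_X, map_sum, Pi.zero_apply, zero_add]
    refine Finset.sum_eq_zero fun k _ => ?_
    rw [map_mul, eval_X, Pi.zero_apply, mul_zero]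
  · rw [H_ne s hi, eval_X]
    rfl

theorem G_hom (s : ℕ) (i : Fin (n + 2)) : (G n s i).IsHomogeneous 1 := by
  by_cases hi : i = 1
  · subst hi
    rw [G_one, sub_eq_add_neg]
    refine (isHomogeneous_X _ _).add ?_
    have h1 : (∑ k : Fin n, C ((s : ℂ) ^ ((k : ℕ) + 1)) * X k.succ.succ :
        MvPolynomial (Fin (n + 2)) ℂ).IsHomogeneous 1 :=
      IsHomogeneous.sum _ _ _ fun j _ => isHomogeneous_C_mul_X _ _
    exact h1.neg
  · rw [G_ne s hi]
    exact isHomogeneous_X _ _

theorem aeval_G {E : Type} [Field E] [Algebra ℂ E] (s : ℕ) (X : Fin (n + 2) → E)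
    (i : Fin (n + 2)) : aeval (tw s X) (G n s i) = X i := by
  have hne : ∀ j : Fin (n + 2), j ≠ 1 → tw s X j = X j := fun j hj => Function.update_of_ne hj _ _
  have h1 : tw s X 1 = X 1 + ∑ k : Fin n, (s : E) ^ ((k : ℕ) + 1) * X k.succ.succ := by
    have h2 : tw s X 1 = ∑ k : Fin (n + 1), (s : E) ^ (k : ℕ) * X k.succ :=
      Function.update_self _ _ _
    rw [h2, Fin.sum_univ_succ]
    simp only [Fin.val_zero, pow_zero, one_mul, Fin.val_succ]
    rfl
  by_cases hi : i = 1
  · subst hi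
    rw [G_one, map_sub, aeval_X, map_sum, h1]
    have h2 : ∑ k : Fin n, aeval (tw s X) (C ((s : ℂ) ^ ((k : ℕ) + 1)) * MvPolynomial.X k.succ.succ) =
        ∑ k : Fin n, (s : E) ^ ((k : ℕ) + 1) * X k.succ.succ := by
      refine Finset.sum_congr rfl fun k _ => ?_
      rw [map_mul, aeval_X, hne _ (ss_ne k), aeval_C, map_pow, map_natCast]
    rw [h2, add_sub_cancel_right]
  · rw [G_ne s hi, aeval_X, hne i hi]

end change

/-! ### Derivations -/

theorem exists_tb {k L : Type} [Field k] [Field L] [Algebra k L] {m : ℕ}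
    (h : Algebra.trdeg k L = m) : ∃ t : Fin m → L, IsTranscendenceBasis k t := by
  obtain ⟨ι, z, hz⟩ := exists_isTranscendenceBasis' k L
  have h1 := hz.cardinalMk_eq_trdeg
  rw [h] at h1
  have h2 : Cardinal.lift.{0} (Cardinal.mk ι) = Cardinal.lift.{0} (Cardinal.mk (Fin m)) := by
    rw [h1]
    simp
  obtain ⟨e⟩ := Cardinal.lift_mk_eq'.1 h2
  exact ⟨z ∘ e.symm, (isTranscendenceBasis_equiv e.symm).2 hz⟩

/-- a derivation which vanishes on a subfield of full transcendence degree is zero -/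
theorem der_zero {E : Type} [Field E] [Algebra ℂ E] {n : ℕ} (S : Set E)
    (h1 : Algebra.trdeg ℂ (IntermediateField.adjoin ℂ S) = n) (h2 : Algebra.trdeg ℂ E = n)
    (D : Derivation ℂ E E) (hD : ∀ x ∈ S, D x = 0) : D = 0 := by
  have h3 : Algebra.trdeg ℂ (IntermediateField.adjoin ℂ S) +
      Algebra.trdeg (IntermediateField.adjoin ℂ S) E = Algebra.trdeg ℂ E :=
    trdeg_add_eq ℂ (IntermediateField.adjoin ℂ S)
  rw [h1, h2] at h3
  have h4 : Algebra.trdeg (IntermediateField.adjoin ℂ S) E = 0 := by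
    have h5 : Algebra.trdeg (IntermediateField.adjoin ℂ S) E ≤ (n : Cardinal) := by
      rw [← h3]
      exact self_le_add_left _ _
    obtain ⟨k, hk⟩ := Cardinal.lt_aleph0.1 (h5.trans_lt (Cardinal.natCast_lt_aleph0))
    rw [hk] at h3 ⊢
    have h6 : n + k = n := by exact_mod_cast h3
    have h7 : k = 0 := by omega
    rw [h7, Nat.cast_zero]
  exact Pool.Agent.W602.GT.der_eq_zero D S (trdeg_eq_zero_iff.1 h4) hD

/-! ### The derivations -/

section ders

variable {Ω E : Type} [Field Ω] [Algebra ℂ Ω] [Field E] [Algebra ℂ E] [Algebra Ω E]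
  [IsScalarTower ℂ Ω E] [IsAlgClosed Ω] [IsFF Ω E]

/-- A system of independent derivations. -/
theorem exists_ders (hc : Pool.Agent.N162.CV.StDERc) {m : ℕ} (hm : Algebra.trdeg ℂ Ω = m) (x : E)
    (hx : Transcendental Ω x) : ∃ δ : Fin (m + 1) → Derivation ℂ E E,
    (∀ a : Ω, δ 0 (algebraMap Ω E a) = 0) ∧ δ 0 x = 1 ∧
    (∀ i, i ≠ 0 → δ i x = 0 ∧
      ∃ D : Derivation ℂ Ω Ω, ∀ a, δ i (algebraMap Ω E a) = algebraMap Ω E (D a)) ∧
    LinearIndependent E δ := by
  classical
  obtain ⟨⟨δ₀, h0⟩, hD⟩ := hc Ω E x hx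
  obtain ⟨t, ht⟩ := exists_tb hm
  choose D hDt using fun i : Fin m =>
    Pool.Agent.W602.GT.exists_der t ht (fun j => if j = i then (1 : Ω) else 0)
  choose δ' h1 h2 using fun i : Fin m => hD (D i)
  have e0 : ∀ a : Ω, (δ₀.restrictScalars ℂ) (algebraMap Ω E a) = 0 :=
    fun a => δ₀.map_algebraMap a
  have e1 : (δ₀.restrictScalars ℂ) x = 1 := h0
  refine ⟨Fin.cons (δ₀.restrictScalars ℂ) δ', ?_, ?_, ?_, ?_⟩
  · intro a
    rw [Fin.cons_zero]
    exact e0 a
  · rw [Fin.cons_zero]
    exact e1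
  · intro i hi
    obtain ⟨j, rfl⟩ := Fin.exists_succ_eq.2 hi
    rw [Fin.cons_succ]
    exact ⟨h2 j, D j, h1 j⟩
  · rw [Fintype.linearIndependent_iff]
    intro g hg
    rw [Fin.sum_univ_succ] at hg
    simp only [Fin.cons_zero, Fin.cons_succ] at hg
    have h3 : ∀ y : E, g 0 * (δ₀.restrictScalars ℂ) y + ∑ i : Fin m, g i.succ * δ' i y = 0 := by
      intro y
      have h4 := congrArg (fun d : Derivation ℂ E E => d y) hg
      have h5 : (∑ i : Fin m, g i.succ • δ' i) y = ∑ i : Fin m, g i.succ * δ' i y :=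
        map_sum (⟨⟨fun d : Derivation ℂ E E => d y, rfl⟩, fun _ _ => rfl⟩ :
          Derivation ℂ E E →+ E) (fun i : Fin m => g i.succ • δ' i) Finset.univ
      rw [← h5]
      exact h4
    intro i
    refine Fin.cases ?_ (fun j => ?_) i
    · have h4 := h3 x
      rw [e1] at h4
      simpa [h2] using h4
    · have h4 := h3 (algebraMap Ω E (t j))
      rw [e0, mul_zero, zero_add] at h4
      have h5 : ∑ i : Fin m, g i.succ * δ' i (algebraMap Ω E (t j)) = g j.succ := by
        rw [Finset.sum_eq_single j]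
        · rw [h1, hDt, if_pos rfl, map_one, mul_one]
        · intro b _ hb
          rw [h1, hDt, if_neg (Ne.symm hb), map_zero, mul_zero]
        · intro h
          exact absurd (Finset.mem_univ _) h
      rw [h5] at h4
      exact h4

end ders

/-- HN/VC -/
theorem vc_ (hGX : StGX) (hNM : StNM) (hc : Pool.Agent.N162.CV.StDERc) : StVC := by
  classical
  intro n Ω E _ _ _ _ _ _ _ _ F d e hn hF hFd X hX0 hgen hXF hΩ hK hbad hed
  obtain ⟨bad, hbad⟩ := hbad
  have cΩ : CharZero Ω := charZero_of_injective_algebraMap (algebraMap ℂ Ω).injective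
  obtain ⟨bad', hbad'⟩ := hGX n Ω E X hX0 hgen
  obtain ⟨s, hs⟩ := Infinite.exists_notMem_finset (bad ∪ bad')
  rw [Finset.mem_union, not_or] at hs
  have hg := (hbad' s hs.2).1
  have hfr := hbad s hs.1
  obtain ⟨m, rfl⟩ : ∃ m, n = m + 1 := ⟨n - 1, by omega⟩
  have hm : Algebra.trdeg ℂ Ω = m := by
    have h1 : Algebra.trdeg ℂ Ω + 1 = (m : Cardinal) + 1 := by
      rw [hΩ]
      push_cast
      rfl
    exact Cardinal.add_one_inj.1 h1
  have hE : Algebra.trdeg ℂ E = (m + 1 : ℕ) := by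
    rw [← trdeg_add_eq ℂ Ω (A := E), hm, IsFF.trdeg]
    push_cast
    rfl
  set Y : Fin (m + 1 + 2) → E := tw s X with hY
  set F' := aeval (G (m + 1) s) F with hF'
  have hsm : Sm F' := sm_change hF (G (m + 1) s) (H (m + 1) s) (GH s) (HG s) (H_zero s)
  have hhom : F'.IsHomogeneous d := by
    have h1 := hFd.aeval (G (m + 1) s) (G_hom s)
    rwa [one_mul] at h1
  have hYF : aeval Y F' = 0 := by
    rw [hF', comp_aeval_apply]
    have h1 : (fun i => aeval Y (G (m + 1) s i)) = X := funext fun i => aeval_G s X i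
    rw [h1, hXF]
  obtain ⟨δ, hd0, hd1, hd2, hli⟩ := exists_ders hc hm (Y 1) hg.tr
  have hY0 : Y 0 = 1 := hg.one
  have hYne : Y 0 ≠ 0 := by rw [hY0]; exact one_ne_zero
  obtain ⟨c, hcc⟩ := exists_c hsm (x := Y) (j0 := 0) hYne
  have h1 := hNM (m + 1) Ω E F' d hsm hhom Y hg hYF (by omega) 0 δ hd0 hd1 hd2 c
  refine Pool.Agent.Y988.NT.res_c E (m + 1) d F' hhom (by omega) c Y hYF hcc ?_ δ hli h1
  intro D hD
  have h2 : ∀ j, D (Y j) = 0 := by
    intro j
    have h3 := hD 0 j
    rw [hY0, D.map_one_eq_zero, mul_zero, one_mul] at h3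
    exact h3
  refine der_zero (Set.range X) hK hE D ?_
  rintro _ ⟨i, rfl⟩
  rw [← aeval_G s X i, der_aeval]
  refine Finset.sum_eq_zero fun j _ => ?_
  rw [← hY, h2, mul_zero]

end Pool.Agent.N607.HN
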